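import Mathlib

set_option autoImplicit false

namespace Pool.Agent.Results.MP_7555fa_al.SolubilizerCounterexample

/-- The commutator `[a, b] = a⁻¹ b⁻¹ a b`. -/
def comm {G : Type} [Group G] (a b : G) : G := a⁻¹ * b⁻¹ * a * b

/-- The left-normed commutator `[a₁, …, a_k] = [[a₁, …, a_{k-1}], a_k]` of a list. -/
def leftNormed {G : Type} [Group G] : List G → G
  | [] => 1
  | a :: l => l.foldl comm a

/-- The solubilizer of `x`: all `y` such that `⟨x, y⟩` is soluble. -/
def Sol {G : Type} [Group G] (x : G) : Set G :=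
  {y : G | Group.IsSolvable (Subgroup.closure ({x, y} : Set G))}

/-- `γ_k(G)`: the subgroup generated by all left-normed commutators of weight `k`. -/
def gamma (k : ℕ) (G : Type) [Group G] : Subgroup G :=
  Subgroup.closure {g : G | ∃ l : List G, l.length = k ∧ leftNormed l = g}

/-! ### Certificates for non-solubility -/

/-- In a soluble group, `a ^ 2 = b ^ 3 = (a b) ^ 7 = 1` forces `a = 1`. -/
lemma hurwitz {H : Type} [Group H] (hs : Group.IsSolvable H) (a b : H) (ha : a ^ 2 = 1)
    (hb : b ^ 3 = 1) (hab : (a * b) ^ 7 = 1) : a = 1 := by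
  have step : ∀ D : Subgroup H, a ∈ D → b ∈ D → a ∈ ⁅D, D⁆ ∧ b ∈ ⁅D, D⁆ := by
    intro D haD hbD
    set α : Abelianization D := Abelianization.of ⟨a, haD⟩ with hα
    set β : Abelianization D := Abelianization.of ⟨b, hbD⟩ with hβ
    have h1 : α ^ 2 = 1 := by
      rw [hα, ← map_pow]
      have : (⟨a, haD⟩ : D) ^ 2 = 1 := Subtype.ext ha
      rw [this, map_one]
    have h2 : β ^ 3 = 1 := by
      rw [hβ, ← map_pow]
      have : (⟨b, hbD⟩ : D) ^ 3 = 1 := Subtype.ext hb
      rw [this, map_one]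
    have h3 : (α * β) ^ 7 = 1 := by
      rw [hα, hβ, ← map_mul, ← map_pow]
      have : ((⟨a, haD⟩ : D) * ⟨b, hbD⟩) ^ 7 = 1 := Subtype.ext hab
      rw [this, map_one]
    have h4 : α * β = 1 := by
      have e1 : α ^ 7 = α := by
        calc α ^ 7 = (α ^ 2) ^ 3 * α := by group
          _ = α := by rw [h1]; simp
      have e2 : β ^ 7 = β := by
        calc β ^ 7 = (β ^ 3) ^ 2 * β := by group
          _ = β := by rw [h2]; simp
      rw [mul_pow, e1, e2] at h3
      exact h3
    have h5 : α = 1 := by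
      have e3 : α = β⁻¹ := eq_inv_of_mul_eq_one_left h4
      calc α = α ^ 3 * (α ^ 2)⁻¹ := by group
        _ = 1 := by rw [h1, e3, inv_pow, h2]; simp
    have h6 : β = 1 := by rw [h5, one_mul] at h4; exact h4
    have h7 : (⟨a, haD⟩ : D) ∈ commutator D := by
      rw [← Abelianization.ker_of]; exact h5
    have h8 : (⟨b, hbD⟩ : D) ∈ commutator D := by
      rw [← Abelianization.ker_of]; exact h6
    constructor
    · rw [← Subgroup.map_subtype_commutator D]
      exact ⟨_, h7, rfl⟩
    · rw [← Subgroup.map_subtype_commutator D]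
      exact ⟨_, h8, rfl⟩
  have hall : ∀ n, a ∈ derivedSeries H n ∧ b ∈ derivedSeries H n := by
    intro n
    induction n with
    | zero => exact ⟨trivial, trivial⟩
    | succ n ih => exact step _ ih.1 ih.2
  obtain ⟨n, hn⟩ := hs
  have := (hall n).1
  rw [hn] at this
  exact this

/-! ### The group `PGL(2, 7)` acting on eight points -/

/-- the 8-cycle -/
def x : Equiv.Perm (ZMod 8) where
  toFun z := z + 1
  invFun z := z - 1
  left_inv z := by ring
  right_inv z := by ring

/-- the reflection -/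
def s : Equiv.Perm (ZMod 8) where
  toFun z := - z
  invFun z := - z
  left_inv z := by ring
  right_inv z := by ring

/-- representative 1 -/
def t1 : Equiv.Perm (ZMod 8) where
  toFun z := (![0, 1, 3, 5, 6, 4, 7, 2] : Fin 8 → ZMod 8) z
  invFun z := (![0, 1, 7, 2, 5, 3, 4, 6] : Fin 8 → ZMod 8) z
  left_inv := by decide
  right_inv := by decide

/-- representative 2 -/
def t2 : Equiv.Perm (ZMod 8) where
  toFun z := (![0, 1, 4, 6, 2, 7, 3, 5] : Fin 8 → ZMod 8) z
  invFun z := (![0, 1, 4, 6, 2, 7, 3, 5] : Fin 8 → ZMod 8) z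
  left_inv := by decide
  right_inv := by decide

/-- representative 3 -/
def t3 : Equiv.Perm (ZMod 8) where
  toFun z := (![0, 1, 5, 4, 7, 6, 2, 3] : Fin 8 → ZMod 8) z
  invFun z := (![0, 1, 6, 7, 3, 2, 5, 4] : Fin 8 → ZMod 8) z
  left_inv := by decide
  right_inv := by decide

/-- representative 4 -/
def t4 : Equiv.Perm (ZMod 8) where
  toFun z := (![0, 2, 1, 7, 5, 4, 6, 3] : Fin 8 → ZMod 8) z
  invFun z := (![0, 2, 1, 7, 5, 4, 6, 3] : Fin 8 → ZMod 8) z
  left_inv := by decide
  right_inv := by decide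

/-- representative 5 -/
def t5 : Equiv.Perm (ZMod 8) where
  toFun z := (![0, 3, 7, 5, 2, 1, 6, 4] : Fin 8 → ZMod 8) z
  invFun z := (![0, 5, 4, 1, 7, 3, 6, 2] : Fin 8 → ZMod 8) z
  left_inv := by decide
  right_inv := by decide

/-- all double coset representatives -/
def rep : Fin 7 → Equiv.Perm (ZMod 8) := ![1, s, t1, t2, t3, t4, t5]

lemma table : ∀ k : Fin 7, ∀ j : Fin 8, ∃ k' : Fin 7, ∃ i' j' : Fin 8,
    rep k * x ^ (j : ℕ) * t2 = x ^ (i' : ℕ) * rep k' * x ^ (j' : ℕ) := by
  decide +kernel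

lemma x_pow8 : x ^ 8 = 1 := by decide +kernel

/-- The group: `PGL(2, 7)` as a permutation group on eight points. -/
abbrev K : Subgroup (Equiv.Perm (ZMod 8)) := Subgroup.closure {x, t2}

lemma red (j : ℤ) : ∃ i : Fin 8, x ^ j = x ^ (i : ℕ) := by
  refine ⟨⟨(j % 8).toNat, by omega⟩, ?_⟩
  have h8 : x ^ (8 : ℤ) = 1 := by
    have := x_pow8
    exact_mod_cast this
  have h1 : j = 8 * (j / 8) + j % 8 := by omega
  conv_lhs => rw [h1]
  rw [zpow_add, zpow_mul, h8, one_zpow, one_mul, ← zpow_natCast]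
  congr 1
  simp only
  omega

lemma decomposition (g : Equiv.Perm (ZMod 8)) (hg : g ∈ K) :
    ∃ k : Fin 7, ∃ i j : ℤ, g = x ^ i * rep k * x ^ j := by
  have step : ∀ g, (∃ k : Fin 7, ∃ i j : ℤ, g = x ^ i * rep k * x ^ j) →
      ∃ k : Fin 7, ∃ i j : ℤ, g * t2 = x ^ i * rep k * x ^ j := by
    rintro g ⟨k, i, j, rfl⟩
    obtain ⟨j0, hj0⟩ := red j
    obtain ⟨k', i', j', h⟩ := table k j0
    refine ⟨k', i + ((i' : ℕ) : ℤ), ((j' : ℕ) : ℤ), ?_⟩
    rw [hj0, mul_assoc (x ^ i), mul_assoc (x ^ i), h, zpow_add, zpow_natCast, zpow_natCast]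
    group
  have ht2 : t2⁻¹ = t2 := by decide +kernel
  induction hg using Subgroup.closure_induction_right with
  | one => exact ⟨0, 0, 0, by simp [rep]⟩
  | mul_right g hg y hy ih =>
    rcases hy with rfl | rfl
    · obtain ⟨k, i, j, rfl⟩ := ih
      exact ⟨k, i, j + 1, by rw [zpow_add, zpow_one, mul_assoc]⟩
    · exact step g ih
  | mul_inv_cancel g hg y hy ih =>
    rcases hy with rfl | rfl
    · obtain ⟨k, i, j, rfl⟩ := ih
      exact ⟨k, i, j - 1, by rw [zpow_sub, zpow_one, mul_assoc]⟩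
    · rw [ht2]; exact step g ih

/-- translations and reflections -/
def IsD (g : Equiv.Perm (ZMod 8)) : Prop :=
  (∃ c, ∀ z, g z = z + c) ∨ (∃ c, ∀ z, g z = c - z)

lemma x_zpow (j : ℤ) : ∀ z, (x ^ j) z = z + j := by
  induction j using Int.induction_on with
  | zero => intro z; simp
  | succ i ih =>
    intro z
    rw [zpow_add_one, Equiv.Perm.mul_apply, ih]
    show z + 1 + _ = _
    push_cast; ring
  | pred i ih =>
    intro z
    rw [zpow_sub_one, Equiv.Perm.mul_apply, ih]
    show z - 1 + _ = _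
    push_cast; ring

lemma inv_trans (g : Equiv.Perm (ZMod 8)) (c : ZMod 8) (h : ∀ z, g z = z + c) (z : ZMod 8) :
    g⁻¹ z = z - c := by
  rw [Equiv.Perm.inv_eq_iff_eq, h]; ring

lemma inv_refl (g : Equiv.Perm (ZMod 8)) (c : ZMod 8) (h : ∀ z, g z = c - z) (z : ZMod 8) :
    g⁻¹ z = c - z := by
  rw [Equiv.Perm.inv_eq_iff_eq, h]; ring

lemma comm_DD (a b : Equiv.Perm (ZMod 8)) (ha : IsD a) (hb : IsD b) :
    ∃ c, ∀ z, comm a b z = z + 2 * c := by
  rcases ha with ⟨c, hc⟩ | ⟨c, hc⟩ <;> rcases hb with ⟨d, hd⟩ | ⟨d, hd⟩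
  · refine ⟨0, fun z => ?_⟩
    simp only [comm, Equiv.Perm.mul_apply, inv_trans _ _ hc, inv_trans _ _ hd, hc, hd]; ring
  · refine ⟨-c, fun z => ?_⟩
    simp only [comm, Equiv.Perm.mul_apply, inv_trans _ _ hc, inv_refl _ _ hd, hc, hd]; ring
  · refine ⟨d, fun z => ?_⟩
    simp only [comm, Equiv.Perm.mul_apply, inv_refl _ _ hc, inv_trans _ _ hd, hc, hd]; ring
  · refine ⟨c - d, fun z => ?_⟩
    simp only [comm, Equiv.Perm.mul_apply, inv_refl _ _ hc, inv_refl _ _ hd, hc, hd]; ring

lemma comm_TD (a b : Equiv.Perm (ZMod 8)) (c : ZMod 8) (ha : ∀ z, a z = z + c) (hb : IsD b) :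
    ∃ c', (c' = 0 ∨ c' = -1) ∧ ∀ z, comm a b z = z + 2 * c * c' := by
  rcases hb with ⟨d, hd⟩ | ⟨d, hd⟩
  · refine ⟨0, Or.inl rfl, fun z => ?_⟩
    simp only [comm, Equiv.Perm.mul_apply, inv_trans _ _ ha, inv_trans _ _ hd, ha, hd]; ring
  · refine ⟨-1, Or.inr rfl, fun z => ?_⟩
    simp only [comm, Equiv.Perm.mul_apply, inv_trans _ _ ha, inv_refl _ _ hd, ha, hd]; ring

/-- weight four commutators of elements of the dihedral group are trivial -/
lemma comm4 (a b c d : Equiv.Perm (ZMod 8)) (ha : IsD a) (hb : IsD b) (hc : IsD c) (hd : IsD d) :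
    comm (comm (comm a b) c) d = 1 := by
  obtain ⟨u, hu⟩ := comm_DD a b ha hb
  obtain ⟨v, -, hv⟩ := comm_TD _ c _ hu hc
  obtain ⟨w, -, hw⟩ := comm_TD _ d _ hv hd
  ext z
  rw [hw]
  have h8 : (8 : ZMod 8) = 0 := by decide
  have : 2 * (2 * (2 * u) * v) * w = 8 * (u * v * w) := by ring
  rw [this, h8, zero_mul, add_zero]; rfl

lemma hurwitz' (H : Subgroup K) (hs : Group.IsSolvable H) (a b : K) (ha : a ∈ H) (hb : b ∈ H)
    (h1 : (a : Equiv.Perm (ZMod 8)) ^ 2 = 1) (h2 : (b : Equiv.Perm (ZMod 8)) ^ 3 = 1)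
    (h3 : ((a : Equiv.Perm (ZMod 8)) * (b : Equiv.Perm (ZMod 8))) ^ 7 = 1) :
    (a : Equiv.Perm (ZMod 8)) = 1 := by
  have := hurwitz hs ⟨a, ha⟩ ⟨b, hb⟩ (Subtype.ext (Subtype.ext h1))
    (Subtype.ext (Subtype.ext h2)) (Subtype.ext (Subtype.ext h3))
  exact congrArg (fun u : H => ((u : K) : Equiv.Perm (ZMod 8))) this

lemma hxK : x ∈ K := Subgroup.subset_closure (Or.inl rfl)
lemma htK : t2 ∈ K := Subgroup.subset_closure (Or.inr rfl)

/-- the element `x` in the group -/
def X : K := ⟨x, hxK⟩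

/-- the elements of the solubilizer of `x` lie in the dihedral group -/
lemma isD_of_mem_Sol (y : K) (hy : y ∈ Sol X) : IsD (y : Equiv.Perm (ZMod 8)) := by
  obtain ⟨k, i, j, h⟩ := decomposition y y.2
  set H : Subgroup K := Subgroup.closure ({X, y} : Set K) with hH
  have hs : Group.IsSolvable H := hy
  have hX : X ∈ H := Subgroup.subset_closure (Or.inl rfl)
  have hyH : y ∈ H := Subgroup.subset_closure (Or.inr rfl)
  set T : K := X ^ (-i) * y * X ^ (-j) with hT
  have hTH : T ∈ H := H.mul_mem (H.mul_mem (H.zpow_mem hX _) hyH) (H.zpow_mem hX _)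
  have hTv : (T : Equiv.Perm (ZMod 8)) = rep k := by
    rw [hT]
    simp only [Subgroup.coe_mul, Subgroup.coe_zpow]
    rw [h]
    show x ^ (-i) * (x ^ i * rep k * x ^ j) * x ^ (-j) = rep k
    group
  have hXv : (X : Equiv.Perm (ZMod 8)) = x := rfl
  fin_cases k
  · -- rotation
    left
    refine ⟨(i : ZMod 8) + j, fun z => ?_⟩
    rw [h]
    show (x ^ i * 1 * x ^ j) z = _
    rw [mul_one, Equiv.Perm.mul_apply, x_zpow, x_zpow]; ring
  · right
    refine ⟨(i : ZMod 8) - j, fun z => ?_⟩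
    rw [h]
    show (x ^ i * s * x ^ j) z = _
    rw [Equiv.Perm.mul_apply, Equiv.Perm.mul_apply, x_zpow, x_zpow]
    show - (z + (j : ZMod 8)) + i = _
    ring
  · exfalso
    have hTv' : (T : Equiv.Perm (ZMod 8)) = t1 := hTv
    have := hurwitz' H hs (X ^ 3 * T) (T ^ 2) (H.mul_mem (H.pow_mem hX _) hTH) (H.pow_mem hTH _)
      (by simp only [Subgroup.coe_mul, Subgroup.coe_pow, hTv', hXv]; decide +kernel)
      (by simp only [Subgroup.coe_pow, hTv']; decide +kernel)
      (by simp only [Subgroup.coe_mul, Subgroup.coe_pow, hTv', hXv]; decide +kernel)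
    simp only [Subgroup.coe_mul, Subgroup.coe_pow, hTv', hXv] at this
    revert this; decide +kernel
  · exfalso
    have hTv' : (T : Equiv.Perm (ZMod 8)) = t2 := hTv
    have := hurwitz' H hs (X ^ 4) (X * T * (X ^ 3)⁻¹ * T) (H.pow_mem hX _)
      (H.mul_mem (H.mul_mem (H.mul_mem hX hTH) (H.inv_mem (H.pow_mem hX _))) hTH)
      (by simp only [Subgroup.coe_pow, hXv]; decide +kernel)
      (by simp only [Subgroup.coe_mul, Subgroup.coe_pow, Subgroup.coe_inv, hTv', hXv]
          decide +kernel)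
      (by simp only [Subgroup.coe_mul, Subgroup.coe_pow, Subgroup.coe_inv, hTv', hXv]
          decide +kernel)
    simp only [Subgroup.coe_pow, hXv] at this
    revert this; decide +kernel
  · exfalso
    have hTv' : (T : Equiv.Perm (ZMod 8)) = t3 := hTv
    have := hurwitz' H hs (X ^ 2 * T⁻¹) (X⁻¹ * T * X) (H.mul_mem (H.pow_mem hX _) (H.inv_mem hTH))
      (H.mul_mem (H.mul_mem (H.inv_mem hX) hTH) hX)
      (by simp only [Subgroup.coe_mul, Subgroup.coe_pow, Subgroup.coe_inv, hTv', hXv]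
          decide +kernel)
      (by simp only [Subgroup.coe_mul, Subgroup.coe_inv, hTv', hXv]
          decide +kernel)
      (by simp only [Subgroup.coe_mul, Subgroup.coe_pow, Subgroup.coe_inv, hTv', hXv]
          decide +kernel)
    simp only [Subgroup.coe_mul, Subgroup.coe_pow, Subgroup.coe_inv, hTv', hXv] at this
    revert this; decide +kernel
  · exfalso
    have hTv' : (T : Equiv.Perm (ZMod 8)) = t4 := hTv
    have := hurwitz' H hs (X ^ 4) (T * X ^ 3 * T * (X ^ 2)⁻¹ * T) (H.pow_mem hX _)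
      (H.mul_mem (H.mul_mem (H.mul_mem (H.mul_mem hTH (H.pow_mem hX _)) hTH)
        (H.inv_mem (H.pow_mem hX _))) hTH)
      (by simp only [Subgroup.coe_pow, hXv]; decide +kernel)
      (by simp only [Subgroup.coe_mul, Subgroup.coe_pow, Subgroup.coe_inv, hTv', hXv]
          decide +kernel)
      (by simp only [Subgroup.coe_mul, Subgroup.coe_pow, Subgroup.coe_inv, hTv', hXv]
          decide +kernel)
    simp only [Subgroup.coe_pow, hXv] at this
    revert this; decide +kernel
  · exfalso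
    have hTv' : (T : Equiv.Perm (ZMod 8)) = t5 := hTv
    have := hurwitz' H hs (X ^ 4) T (H.pow_mem hX _) hTH
      (by simp only [Subgroup.coe_pow, hXv]; decide +kernel)
      (by simp only [hTv']; decide +kernel)
      (by simp only [Subgroup.coe_pow, hTv', hXv]; decide +kernel)
    simp only [Subgroup.coe_pow, hXv] at this
    revert this; decide +kernel

lemma foldl_one {G : Type} [Group G] (l : List G) : l.foldl comm 1 = 1 := by
  induction l with
  | nil => rfl
  | cons a l ih => rw [List.foldl_cons, show comm (1 : G) a = 1 by simp [comm], ih]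

/-- Q1 is false for every `k ≥ 4`, with a single group and element. -/
theorem result : ∃ (G : Type) (_ : Group G) (_ : Finite G) (x : G), ∀ k : ℕ, 4 ≤ k →
    (∀ l : List G, l.length = k → (∀ u ∈ l, u ∈ Sol x) → leftNormed l = 1) ∧ gamma k G ≠ ⊥ := by
  refine ⟨K, inferInstance, inferInstance, X, fun k hk => ⟨fun l hl hu => ?_, fun hbot => ?_⟩⟩
  · match l, hl with
    | [], hl => simp at hl; omega
    | [_], hl => simp at hl; omega
    | [_, _], hl => simp at hl; omega
    | [_, _, _], hl => simp at hl; omega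
    | a :: b :: c :: d :: l', _ =>
      have h1 : comm (comm (comm a b) c) d = 1 := by
        apply Subtype.ext
        exact comm4 a b c d (isD_of_mem_Sol a (hu a (by simp)))
          (isD_of_mem_Sol b (hu b (by simp))) (isD_of_mem_Sol c (hu c (by simp)))
          (isD_of_mem_Sol d (hu d (by simp)))
      show (a :: b :: c :: d :: l').tail.foldl comm a = 1
      simp only [List.tail_cons, List.foldl_cons]
      rw [h1, foldl_one]
  · set T : K := ⟨t2, htK⟩ with hT
    set c : K := X * T * X ^ 2 * T * X with hc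
    have hcT : comm c T = c := by
      apply Subtype.ext
      simp only [comm, hc, hT, X, Subgroup.coe_mul, Subgroup.coe_pow, Subgroup.coe_inv]
      decide +kernel
    have hfold : ∀ n, (List.replicate n T).foldl comm c = c := by
      intro n
      induction n with
      | zero => rfl
      | succ n ih => rw [List.replicate_succ, List.foldl_cons, hcT, ih]
    have hmem : c ∈ gamma k K := by
      apply Subgroup.subset_closure
      refine ⟨c :: List.replicate (k - 1) T, by simp; omega, hfold _⟩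
    rw [hbot, Subgroup.mem_bot] at hmem
    have h2 : (c : Equiv.Perm (ZMod 8)) = 1 := by rw [hmem]; rfl
    simp only [hc, hT, X, Subgroup.coe_mul, Subgroup.coe_pow] at h2
    revert h2; decide +kernel

end Pool.Agent.Results.MP_7555fa_al.SolubilizerCounterexample
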